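import Mathlib

namespace Pool.Agent.Results.MP_e0279d_an.Q1

open Polynomial

/-- Equation `(*)` at the point `(B, A) = (l ω, A)` has a nonzero polynomial solution. -/
def HasPolySol (ω : ℝ) (l : ℕ) (A : ℝ) : Prop :=
  ∃ E : ℂ[X], E ≠ 0 ∧
    X ^ 2 * derivative (derivative E)
      + (C (1 - (l : ℂ)) * X + C ((A / (2 * ω) : ℝ) : ℂ) * (1 - X ^ 2)) * derivative E
      + (C ((1 / (4 * ω ^ 2) - (A / (2 * ω)) ^ 2 : ℝ) : ℂ)
          + C (((A / (2 * ω) : ℝ) : ℂ) * ((l : ℂ) - 1)) * X) * E = 0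

lemma rec_eq (l m s : ℂ) (E : ℂ[X])
    (h : X ^ 2 * derivative (derivative E) + (C (1 - l) * X + C m * (1 - X ^ 2)) * derivative E
      + (C s + C (m * (l - 1)) * X) * E = 0) :
    s * E.coeff 0 + m * E.coeff 1 = 0 ∧ ∀ j : ℕ,
      (((j : ℂ) + 1) * ((j : ℂ) + 1 - l) + s) * E.coeff (j + 1) + m * ((j : ℂ) + 2) * E.coeff (j + 2)
        + m * (l - j - 1) * E.coeff j = 0 := by
  have h' : X ^ 2 * derivative (derivative E) + C (1 - l) * (X * derivative E) + C m * derivative E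
      - C m * (X ^ 2 * derivative E) + C s * E + C (m * (l - 1)) * (X * E) = 0 := by
    linear_combination h
  have hc : ∀ n, (X ^ 2 * derivative (derivative E)).coeff n + (1 - l) * (X * derivative E).coeff n
      + m * (derivative E).coeff n - m * (X ^ 2 * derivative E).coeff n + s * E.coeff n
      + m * (l - 1) * (X * E).coeff n = 0 := by
    intro n
    have := congrArg (fun p => coeff p n) h'
    simpa only [coeff_add, coeff_sub, coeff_C_mul, coeff_zero] using this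
  refine ⟨?_, fun j => ?_⟩
  · have := hc 0
    simp [coeff_derivative] at this
    linear_combination this
  · rcases j with _ | j
    · have := hc 1
      rw [show (1 : ℕ) = 0 + 1 from rfl, coeff_X_mul, coeff_X_mul] at this
      simp [coeff_X_pow_mul', coeff_derivative] at this
      push_cast
      linear_combination this
    · have := hc (j + 2)
      rw [coeff_X_pow_mul, coeff_X_pow_mul, coeff_X_mul, coeff_X_mul] at this
      simp only [coeff_derivative] at this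
      push_cast at this ⊢
      linear_combination this

lemma key (l : ℕ) (A : ℝ) (hA : 0 < A) (h : HasPolySol (1 / 2) l A) :
    ∃ e : ℕ → ℂ, 1 ≤ l ∧ e (l - 1) ≠ 0 ∧ (∀ j, l ≤ j → e j = 0) ∧
      (1 - (A : ℂ) ^ 2) * e 0 + A * e 1 = 0 ∧ ∀ j : ℕ,
      (((j : ℂ) + 1) * ((j : ℂ) + 1 - l) + (1 - (A : ℂ) ^ 2)) * e (j + 1) + A * ((j : ℂ) + 2) * e (j + 2)
        + A * (l - j - 1) * e j = 0 := by
  obtain ⟨E, hE, h⟩ := h
  obtain ⟨h0, h1⟩ := rec_eq _ _ _ E h
  have e1 : ((A / (2 * (1 / 2)) : ℝ) : ℂ) = A := by push_cast; ring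
  have e2 : ((1 / (4 * (1 / 2) ^ 2) - (A / (2 * (1 / 2))) ^ 2 : ℝ) : ℂ) = 1 - (A : ℂ) ^ 2 := by
    push_cast; ring
  rw [e1, e2] at h0
  simp only [e1, e2] at h1
  have hd := h1 E.natDegree
  rw [coeff_eq_zero_of_natDegree_lt (by omega : E.natDegree < E.natDegree + 1),
    coeff_eq_zero_of_natDegree_lt (by omega : E.natDegree < E.natDegree + 2)] at hd
  have hl : E.coeff E.natDegree ≠ 0 := leadingCoeff_ne_zero.2 hE
  have hA' : (A : ℂ) ≠ 0 := by exact_mod_cast hA.ne'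
  have : (l : ℂ) - E.natDegree - 1 = 0 := by
    have h3 : (A : ℂ) * ((l : ℂ) - E.natDegree - 1) * E.coeff E.natDegree = 0 := by
      linear_combination hd
    rcases mul_eq_zero.1 h3 with h4 | h4
    · exact (mul_eq_zero.1 h4).resolve_left hA'
    · exact absurd h4 hl
  have hl2 : l = E.natDegree + 1 := by
    have : (l : ℂ) = ((E.natDegree + 1 : ℕ) : ℂ) := by push_cast; linear_combination this
    exact_mod_cast this
  refine ⟨E.coeff, by omega, ?_, fun j hj => coeff_eq_zero_of_natDegree_lt (by omega), h0, h1⟩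
  rw [hl2]
  exact hl

lemma sol (l : ℕ) (A : ℝ) (a b c : ℂ) (ha : a ≠ 0)
    (h0 : (1 - (A : ℂ) ^ 2) * a + A * b = 0)
    (h1 : (1 - l + (1 - (A : ℂ) ^ 2)) * b + A * 2 * c + A * (l - 1) * a = 0)
    (h2 : (2 * (2 - l) + (1 - (A : ℂ) ^ 2)) * c + A * (l - 2) * b = 0)
    (h3 : A * ((l : ℂ) - 3) * c = 0) : HasPolySol (1 / 2) l A := by
  have e1 : ((A / (2 * (1 / 2)) : ℝ) : ℂ) = A := by push_cast; ring
  have e2 : ((1 / (4 * (1 / 2) ^ 2) - (A / (2 * (1 / 2))) ^ 2 : ℝ) : ℂ) = 1 - (A : ℂ) ^ 2 := by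
    push_cast; ring
  refine ⟨C a + C b * X + C c * X ^ 2, fun h => ha ?_, ?_⟩
  · have := congrArg (fun p => coeff p 0) h
    simpa using this
  · rw [e1, e2]
    have g0 := congrArg C h0
    have g1 := congrArg C h1
    have g2 := congrArg C h2
    have g3 := congrArg C h3
    simp only [map_add, map_mul, map_sub, map_pow, map_one, map_zero, map_ofNat, map_natCast] at g0 g1 g2 g3
    simp only [map_add, map_mul, map_sub, map_pow, map_one, map_zero, map_natCast,
      derivative_C, derivative_mul, derivative_X, derivative_X_pow, derivative_one,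
      derivative_natCast]
    norm_num
    linear_combination g0 + X * g1 + X ^ 2 * g2 + X ^ 3 * g3

theorem result : ∃ ω : ℝ, 0 < ω ∧ ∃ a₁ a₂ a₃ : ℝ,
    IsGreatest {A | HasPolySol ω 1 A} a₁ ∧ IsGreatest {A | HasPolySol ω 2 A} a₂ ∧
    IsGreatest {A | HasPolySol ω 3 A} a₃ ∧
    ¬ Collinear ℝ ({(1 * ω, a₁), (2 * ω, a₂), (3 * ω, a₃)} : Set (ℝ × ℝ)) := by
  obtain ⟨t, ⟨ht1, ht2⟩, ht⟩ : ∃ t ∈ Set.Icc (183 / 100 : ℝ) 2, t ^ 3 - t ^ 2 - t - 1 = 0 := by
    have hc : ContinuousOn (fun t : ℝ => t ^ 3 - t ^ 2 - t - 1) (Set.Icc (183 / 100) 2) := by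
      fun_prop
    exact intermediate_value_Icc (by norm_num) hc ⟨by norm_num, by norm_num⟩
  have hs : Real.sqrt 2 ^ 2 = 2 := Real.sq_sqrt (by norm_num)
  have hs0 : 0 < Real.sqrt 2 := by positivity
  refine ⟨1 / 2, by norm_num, 1, Real.sqrt 2, t, ⟨?_, ?_⟩, ⟨?_, ?_⟩, ⟨?_, ?_⟩, ?_⟩
  · exact sol 1 1 1 0 0 one_ne_zero (by simp) (by simp) (by simp) (by simp)
  · intro A hA
    by_contra hlt
    push Not at hlt
    obtain ⟨e, -, hne, hz, h0, -⟩ := key 1 A (by linarith) hA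
    rw [hz 1 le_rfl] at h0
    have : (1 - (A : ℂ) ^ 2) = 0 := by
      have h3 : (1 - (A : ℂ) ^ 2) * e 0 = 0 := by linear_combination h0
      exact (mul_eq_zero.1 h3).resolve_right hne
    have : 1 - A ^ 2 = 0 := by exact_mod_cast this
    nlinarith
  · have hs' : ((Real.sqrt 2 : ℝ) : ℂ) ^ 2 = 2 := by exact_mod_cast hs
    refine sol 2 _ (Real.sqrt 2 : ℝ) 1 0 (by exact_mod_cast hs0.ne') ?_ ?_ (by simp) (by simp)
    · linear_combination (-((Real.sqrt 2 : ℝ) : ℂ)) * hs'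
    · push_cast
      ring
  · intro A hA
    by_contra hlt
    push Not at hlt
    obtain ⟨e, -, hne, hz, h0, h1⟩ := key 2 A (by linarith) hA
    have h2 := h1 0
    rw [hz 2 le_rfl] at h2
    push_cast at h2
    have : (A : ℂ) ^ 2 * ((A : ℂ) ^ 2 - 2) = 0 := by
      have h3 : (A : ℂ) ^ 2 * ((A : ℂ) ^ 2 - 2) * e 1 = 0 := by
        linear_combination (1 - (A : ℂ) ^ 2) * h2 - A * h0
      exact (mul_eq_zero.1 h3).resolve_right hne
    have : A ^ 2 * (A ^ 2 - 2) = 0 := by exact_mod_cast this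
    have h4 : 2 < A ^ 2 := by nlinarith
    nlinarith
  · have ht' : (t : ℂ) ^ 3 - t ^ 2 - t - 1 = 0 := by exact_mod_cast ht
    have h0 : 0 < t * (1 + t ^ 2) := by positivity
    refine sol 3 t (t * (1 + t ^ 2)) ((t ^ 2 - 1) * (1 + t ^ 2)) (t * (t ^ 2 - 1))
      (by exact_mod_cast h0.ne') (by ring) ?_ (by push_cast; ring) (by simp)
    push_cast
    linear_combination (-((t : ℂ) ^ 3 + t ^ 2 - t + 1)) * ht'
  · intro A hA
    by_contra hlt
    push Not at hlt
    obtain ⟨e, -, hne, hz, h0, h1⟩ := key 3 A (by linarith) hA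
    have h2 := h1 0
    have h3 := h1 1
    rw [hz 3 le_rfl] at h3
    push_cast at h2 h3
    have : ((A : ℂ) ^ 3 - A ^ 2 - A - 1) * (A ^ 3 + A ^ 2 - A + 1) = 0 := by
      have h4 : ((A : ℂ) ^ 3 - A ^ 2 - A - 1) * (A ^ 3 + A ^ 2 - A + 1) * e 2 = 0 := by
        linear_combination (-(((A : ℂ) ^ 2 - 1) * (A ^ 2 + 1) - 2 * A ^ 2)) * h3
          + (A * (1 - (A : ℂ) ^ 2)) * h2 - 2 * A ^ 2 * h0
      exact (mul_eq_zero.1 h4).resolve_right hne
    have : (A ^ 3 - A ^ 2 - A - 1) * (A ^ 3 + A ^ 2 - A + 1) = 0 := by exact_mod_cast this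
    have h5 : 0 < A ^ 3 - A ^ 2 - A - 1 := by
      have : A ^ 3 - A ^ 2 - A - 1 = (A - t) * (A ^ 2 + A * t + t ^ 2 - A - t - 1) := by
        linear_combination ht
      rw [this]
      apply mul_pos (by linarith)
      nlinarith
    have h6 : 0 < A ^ 3 + A ^ 2 - A + 1 := by nlinarith
    nlinarith [mul_pos h5 h6]
  · intro h
    obtain ⟨v, hv⟩ := (collinear_iff_of_mem (p₀ := ((1 * (1 / 2), 1) : ℝ × ℝ)) (by simp)).1 h
    obtain ⟨r, hr⟩ := hv (2 * (1 / 2), Real.sqrt 2) (by simp)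
    obtain ⟨r', hr'⟩ := hv (3 * (1 / 2), t) (by simp)
    have a1 := congrArg Prod.fst hr
    have a2 := congrArg Prod.snd hr
    have b1 := congrArg Prod.fst hr'
    have b2 := congrArg Prod.snd hr'
    simp only [vadd_eq_add, Prod.fst_add, Prod.snd_add, Prod.smul_fst, Prod.smul_snd,
      smul_eq_mul] at a1 a2 b1 b2
    have : t = 2 * Real.sqrt 2 - 1 := by
      have c1 : r * v.1 = 1 / 2 := by linarith
      have c2 : r' * v.1 = 1 := by linarith
      have c3 : r' = 2 * r := by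
        have : r' * (r * v.1) = r * (r' * v.1) := by ring
        rw [c1, c2] at this
        linarith
      rw [c3] at b2
      linarith
    nlinarith

end Pool.Agent.Results.MP_e0279d_an.Q1
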